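import Pool.Agent.X83.DA.Stm

/-! Project DA, part LOW: duality, lower bound (Hilbert space version; adapted from the proof of helper11
for the finite dimensional case). -/

set_option autoImplicit false

namespace Pool.Agent.X4.DA

open MeasureTheory Set Filter Topology RealInnerProductSpace
open Pool.Agent.X83.DA

section
variable {H : Type*} [NormedAddCommGroup H] [InnerProductSpace ℝ H]

/-- the normalised function -/
noncomputable def F (w : ℝ → H) (r : ℝ) : H := ‖w r‖⁻¹ • w r

/-- the periodic test function -/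
noncomputable def tf (w : ℝ → H) (P t : ℝ) : H := F w (P * Int.fract (-t / P))

theorem norm_F_le (w : ℝ → H) (r : ℝ) : ‖F w r‖ ≤ 1 := by
  unfold F
  rw [norm_smul, norm_inv, norm_norm]
  exact inv_mul_le_one

theorem meas_F {w : ℝ → H} (hw : Continuous w) : StronglyMeasurable (F w) := by
  unfold F
  exact (hw.norm.measurable.inv.stronglyMeasurable).smul hw.stronglyMeasurable

theorem meas_tf {w : ℝ → H} (hw : Continuous w) (P : ℝ) : StronglyMeasurable (tf w P) := by
  unfold tf
  refine (meas_F hw).comp_measurable ?_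
  exact (measurable_fract.comp ((measurable_neg).div_const P)).const_mul P

theorem locInt_tf {w : ℝ → H} (hw : Continuous w) (P : ℝ) : LocallyIntegrable (tf w P) := by
  refine (locallyIntegrable_const (1 : ℝ)).mono (meas_tf hw P).aestronglyMeasurable ?_
  refine Eventually.of_forall fun t => ?_
  exact (norm_F_le w _).trans (by simp)

theorem tf_shift (w : ℝ → H) {P : ℝ} (hP : 0 < P) (n : ℕ) {r : ℝ}
    (hr : 0 ≤ r) (hr' : r < P) : tf w P (n * P - r) = F w r := by
  unfold tf
  congr 1
  have h1 : -(n * P - r) / P = r / P - n := by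
    field_simp
    ring
  rw [h1, Int.fract_sub_natCast, Int.fract_eq_self.mpr ⟨div_nonneg hr hP.le, (div_lt_one hP).mpr hr'⟩]
  field_simp

theorem inner_F (w : ℝ → H) (r : ℝ) : inner ℝ (w r) (F w r) = ‖w r‖ := by
  unfold F
  rw [inner_smul_right, real_inner_self_eq_norm_sq]
  by_cases h : ‖w r‖ = 0
  · rw [h]; simp
  · field_simp

theorem key {w : ℝ → H} (hcv : Continuous w) {P : ℝ} (hP : 0 < P) (n : ℕ) (hn : 1 ≤ n) :
    2 * (∫ r in (0 : ℝ)..P, ‖w r‖) - ∫ r in (0 : ℝ)..(n * P), ‖w r‖ ≤
      ∫ s in (0 : ℝ)..(n * P), inner ℝ (w (n * P - s)) (tf w P s) := by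
  set t : ℝ := n * P with ht
  have hPt : P ≤ t := by
    rw [ht]
    have : (1 : ℝ) ≤ n := by exact_mod_cast hn
    nlinarith
  have hbd : ∀ s, ‖tf w P s‖ ≤ 1 := fun s => norm_F_le w _
  have hsub : ∫ s in (0 : ℝ)..t, inner ℝ (w (t - s)) (tf w P s) =
      ∫ r in (0 : ℝ)..t, inner ℝ (w r) (tf w P (t - r)) := by
    have := intervalIntegral.integral_comp_sub_left
      (fun r => inner ℝ (w r) (tf w P (t - r))) (a := 0) (b := t) t
    simp only [sub_sub_cancel, sub_self, sub_zero] at this
    exact this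
  rw [hsub]
  have hq : ∀ a b : ℝ, IntervalIntegrable (fun r => inner ℝ (w r) (tf w P (t - r)))
      volume a b := by
    intro a b
    have h3 : LocallyIntegrable (fun r => inner ℝ (w r) (tf w P (t - r))) := by
      refine (hcv.norm.locallyIntegrable).mono ?_ (Eventually.of_forall fun r => ?_)
      · exact (hcv.stronglyMeasurable.inner ((meas_tf hcv P).comp_measurable
          (measurable_const.sub measurable_id))).aestronglyMeasurable
      · rw [norm_norm]
        calc ‖inner ℝ (w r) (tf w P (t - r))‖ ≤ ‖w r‖ * ‖tf w P (t - r)‖ :=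
              norm_inner_le_norm _ _
          _ ≤ ‖w r‖ * 1 := by
              exact mul_le_mul_of_nonneg_left (hbd _) (norm_nonneg _)
          _ = _ := mul_one _
    exact (h3.integrableOn_isCompact isCompact_uIcc).intervalIntegrable
  have hn1 : ∀ a b : ℝ, IntervalIntegrable (fun r => ‖w r‖) volume a b :=
    fun a b => hcv.norm.intervalIntegrable a b
  rw [← intervalIntegral.integral_add_adjacent_intervals (hq 0 P) (hq P t),
    ← intervalIntegral.integral_add_adjacent_intervals (hn1 0 P) (hn1 P t)]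
  have e1 : ∫ r in (0 : ℝ)..P, inner ℝ (w r) (tf w P (t - r)) =
      ∫ r in (0 : ℝ)..P, ‖w r‖ := by
    refine intervalIntegral.integral_congr_ae ?_
    filter_upwards [Measure.ae_ne volume P] with r hr hr2
    rw [uIoc_of_le hP.le] at hr2
    rw [ht, tf_shift w hP n hr2.1.le (lt_of_le_of_ne hr2.2 hr), inner_F]
  have e2 : -(∫ r in P..t, ‖w r‖) ≤
      ∫ r in P..t, inner ℝ (w r) (tf w P (t - r)) := by
    rw [← intervalIntegral.integral_neg]
    refine intervalIntegral.integral_mono_on hPt (hn1 P t).neg (hq P t) fun r _ => ?_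
    have h4 := abs_real_inner_le_norm (w r) (tf w P (t - r))
    have h5 : ‖w r‖ * ‖tf w P (t - r)‖ ≤ ‖w r‖ * 1 :=
      mul_le_mul_of_nonneg_left (hbd _) (norm_nonneg _)
    have h6 := (abs_le.mp h4).1
    linarith
  rw [e1]
  linarith

end

theorem t (H : Type*) [NormedAddCommGroup H] [InnerProductSpace ℝ H] [CompleteSpace H] :
    S_LOW H := by
  intro D A b c K P G hSA hF hD hsym hG v
  obtain ⟨γ, C, hγ, hC, hdec⟩ := hD
  set w : ℝ → H := fun s => G s v with hw
  have hcv : Continuous w := hF.cont v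
  have hI : IntegrableOn (fun s => ‖w s‖) (Ioi 0) := by
    have h1 := (exp_neg_integrableOn_Ioi 0 hγ).const_mul (C * ‖v‖)
    refine Integrable.mono' h1 hcv.norm.aestronglyMeasurable ?_
    rw [ae_restrict_iff' measurableSet_Ioi]
    refine Eventually.of_forall fun s hs => ?_
    rw [norm_norm]
    have h2 := (hdec v s (le_of_lt hs)).2
    have h3 : -(γ * s) = -γ * s := by ring
    rw [h3] at h2
    exact h2
  have main : ∀ Q : ℝ, 0 < Q → ∀ ε : ℝ, 0 < ε →
      2 * (∫ r in (0 : ℝ)..Q, ‖w r‖) - (∫ s in Ioi (0 : ℝ), ‖w s‖) ≤ (K + ε) * ‖v‖ := by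
    intro Q hQ ε hε
    have h1 := hG (fun _ => 0) (fun _ => 0) (by
      intro ε hε
      refine ⟨0, fun m n _ _ => ?_⟩
      simpa using hε) (by
      intro t _
      simp) 0 (tf w Q) 1 (locInt_tf hcv Q)
      (Eventually.of_forall fun t => norm_F_le w _) ε hε
    obtain ⟨T0, hT0⟩ := eventually_atTop.mp h1
    obtain ⟨n, hn⟩ := exists_nat_gt (T0 / Q)
    have hn' : T0 ≤ ((n + 1 : ℕ) : ℝ) * Q := by
      rw [div_lt_iff₀ hQ] at hn
      push_cast
      nlinarith
    have h2 := hT0 _ hn'
    have h3 := key hcv hQ (n + 1) (by omega)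
    set T : ℝ := ((n + 1 : ℕ) : ℝ) * Q with hT
    have hTpos : 0 ≤ T := by rw [hT]; positivity
    have h4 : ∫ r in (0 : ℝ)..T, ‖w r‖ ≤ ∫ s in Ioi (0 : ℝ), ‖w s‖ := by
      rw [intervalIntegral.integral_of_le hTpos]
      exact setIntegral_mono_set hI (Eventually.of_forall fun _ => norm_nonneg _)
        (Ioc_subset_Ioi_self.eventuallyLE)
    -- measurability and integrability of the convolution integrand
    have hm : StronglyMeasurable fun s : ℝ => G (T - s) (tf w Q s) := by
      have hu : StronglyMeasurable (Function.uncurry fun (i s : ℝ) => G i (tf w Q s)) :=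
        stronglyMeasurable_uncurry_of_continuous_of_stronglyMeasurable
          (fun s => hF.cont (tf w Q s))
          (fun i => (G i).continuous.comp_stronglyMeasurable (meas_tf hcv Q))
      exact hu.comp_measurable ((measurable_const.sub measurable_id).prodMk measurable_id)
    have hint : IntervalIntegrable (fun s : ℝ => G (T - s) (tf w Q s)) volume 0 T := by
      rw [intervalIntegrable_iff, uIoc_of_le hTpos]
      refine Integrable.mono' (g := fun _ => C) (integrable_const C) hm.aestronglyMeasurable ?_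
      rw [ae_restrict_iff' measurableSet_Ioc]
      refine Eventually.of_forall fun s hs => ?_
      have h5 := (hdec (tf w Q s) (T - s) (by linarith [hs.2])).2
      have h6 : ‖tf w Q s‖ ≤ 1 := norm_F_le w _
      have h7 : Real.exp (-(γ * (T - s))) ≤ 1 := by
        rw [Real.exp_le_one_iff]
        have : 0 ≤ γ * (T - s) := mul_nonneg hγ.le (by linarith [hs.2])
        linarith
      have h8 : C * ‖tf w Q s‖ ≤ C := mul_le_of_le_one_right hC h6
      have h9 : 0 ≤ C * ‖tf w Q s‖ := mul_nonneg hC (norm_nonneg _)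
      calc ‖G (T - s) (tf w Q s)‖ ≤ C * ‖tf w Q s‖ * Real.exp (-(γ * (T - s))) := h5
        _ ≤ C * ‖tf w Q s‖ * 1 := mul_le_mul_of_nonneg_left h7 h9
        _ ≤ C := by rw [mul_one]; exact h8
    have hin : ∫ s in (0 : ℝ)..T, inner ℝ (w (T - s)) (tf w Q s) =
        inner ℝ v (∫ s in (0 : ℝ)..T, G (T - s) (tf w Q s)) := by
      have h5 := (innerSL ℝ v).intervalIntegral_comp_comm hint
      simp only [innerSL_apply_apply] at h5
      rw [← h5]
      refine intervalIntegral.integral_congr fun s _ => ?_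
      exact hsym (T - s) v (tf w Q s)
    rw [hin] at h3
    have h5 := real_inner_le_norm v (∫ s in (0 : ℝ)..T, G (T - s) (tf w Q s))
    have h6 : ‖∫ s in (0 : ℝ)..T, G (T - s) (tf w Q s)‖ ≤ K + ε := by
      simpa using h2
    have h7 := mul_le_mul_of_nonneg_left h6 (norm_nonneg v)
    linarith
  have lim : Tendsto (fun Q : ℝ => 2 * (∫ r in (0 : ℝ)..Q, ‖w r‖) - ∫ s in Ioi (0 : ℝ), ‖w s‖) atTop
      (𝓝 (2 * (∫ s in Ioi (0 : ℝ), ‖w s‖) - ∫ s in Ioi (0 : ℝ), ‖w s‖)) :=
    ((intervalIntegral_tendsto_integral_Ioi 0 hI tendsto_id).const_mul 2).sub_const _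
  have h8 : ∀ ε : ℝ, 0 < ε → (∫ s in Ioi (0 : ℝ), ‖w s‖) ≤ (K + ε) * ‖v‖ := by
    intro ε hε
    have := le_of_tendsto lim ((eventually_gt_atTop 0).mono fun Q hQ => main Q hQ ε hε)
    linarith
  refine le_of_forall_pos_le_add fun δ hδ => ?_
  have hv : 0 < ‖v‖ + 1 := by positivity
  have h9 := h8 (δ / (‖v‖ + 1)) (by positivity)
  have h10 : δ / (‖v‖ + 1) * ‖v‖ ≤ δ := by
    rw [div_mul_eq_mul_div, div_le_iff₀ hv]
    nlinarith [norm_nonneg v]
  have h11 : (∫ s in Ioi (0 : ℝ), ‖G s v‖) = ∫ s in Ioi (0 : ℝ), ‖w s‖ := rfl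
  rw [h11]
  linarith

end Pool.Agent.X4.DA
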